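import Pool.Agent.H341Q.TUFub

set_option autoImplicit false

open Set Pool.Agent.H341Q.TU

namespace Pool.Agent.Y871.TK

/-- The everywhere dominance order on functions. -/
def FunLE (f g : ℕ → ℕ) : Prop := ∀ n, f n ≤ g n

/-- The maximum of the values of `h` up to `n`. -/
def mx (h : ℕ → ℕ) (n : ℕ) : ℕ := (Finset.range (n + 1)).sup h

theorem le_mx (h : ℕ → ℕ) {k n : ℕ} (hk : k ≤ n) : h k ≤ mx h n :=
  Finset.le_sup (f := h) (Finset.mem_range.2 (Nat.lt_succ_of_le hk))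

theorem emb_mem {V W : Ultrafilter ℕ} (hW : NonPrin W) (h : ℕ → ℕ) :
    {x : ℕ | mx h x.unpair.1 ≤ x.unpair.2} ∈ fub V W := by
  rw [mem_fub]
  refine Filter.mem_of_superset Filter.univ_mem ?_
  intro i _
  refine Filter.mem_of_superset (ici_mem hW (mx h i)) ?_
  intro j hj
  show mx h (Nat.pair i j).unpair.1 ≤ (Nat.pair i j).unpair.2
  rw [Nat.unpair_pair]
  exact hj

/-- If `(V · W, ⊇)` is Tukey below `(V · W, ⊇*)`, with `W` a nonprincipal p-point, then the functions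
with everywhere dominance are Tukey below `(V, ⊇)`. -/
theorem fun_of_fub {V W : Ultrafilter ℕ} (hV : NonPrin V) (hW : NonPrin W) (hWp : IsPPt W)
    (h : TukLE (InclOrd (fub V W)) (AlmOrd (fub V W))) : TukLE FunLE (InclOrd V) := by
  obtain ⟨f, hf⟩ := h
  set φ : (ℕ → ℕ) → {A : Set ℕ // A ∈ fub V W} := fun h => f ⟨_, emb_mem hW h⟩ with hφ
  refine ⟨fun h => ⟨{i | {j | Nat.pair i j ∈ (φ h).1} ∈ W}, mem_fub.1 (φ h).2⟩, ?_⟩
  intro S hS
  rintro ⟨⟨Y, hY⟩, hYS⟩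
  -- some coordinate is unbounded on `S`
  have h1 : ∃ k, ∀ n, ∃ s ∈ S, n < s k := by
    by_contra hcon
    push Not at hcon
    choose g hg using hcon
    exact hS ⟨g, fun a ha k => hg k a ha⟩
  obtain ⟨k, hk⟩ := h1
  choose s hsS hs using hk
  have hunb : ¬ ∃ b : {A : Set ℕ // A ∈ fub V W}, ∀ a ∈
      (Set.range fun n => (⟨_, emb_mem hW (s n)⟩ : {A : Set ℕ // A ∈ fub V W})),
        InclOrd (fub V W) a b := by
    rintro ⟨⟨C, hC⟩, hC'⟩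
    have hC1 := mem_fub.1 hC
    obtain ⟨i, hi, hki⟩ := V.nonempty_of_mem (Filter.inter_mem hC1 (ici_mem hV k))
    obtain ⟨j, hj⟩ := W.nonempty_of_mem hi
    have h2 := hC' _ ⟨j, rfl⟩ hj
    have h3 : mx (s j) (Nat.pair i j).unpair.1 ≤ (Nat.pair i j).unpair.2 := h2
    rw [Nat.unpair_pair] at h3
    have h4 := le_mx (s j) hki
    have h5 := hs j
    have h6 : mx (s j) i ≤ j := h3
    omega
  apply hf _ hunb
  obtain ⟨C, hC, hCf⟩ := bounded_of_proj (V := V) hWp (fun n => (φ (s n)).1) hY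
    (fun n => hYS (s n) (hsS n))
  refine ⟨⟨C, hC⟩, ?_⟩
  rintro _ ⟨n, rfl⟩
  exact hCf n

theorem tukLE_trans {P Q R : Type*} {r : P → P → Prop} {s : Q → Q → Prop} {t : R → R → Prop}
    (h1 : TukLE r s) (h2 : TukLE s t) : TukLE r t := by
  obtain ⟨f, hf⟩ := h1
  obtain ⟨g, hg⟩ := h2
  refine ⟨g ∘ f, fun A hA hc => ?_⟩
  apply hg (f '' A)
  · rintro ⟨b, hb⟩
    exact hf A hA ⟨b, fun a ha => hb _ ⟨a, ha, rfl⟩⟩
  · obtain ⟨c, hc⟩ := hc
    refine ⟨c, ?_⟩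
    rintro _ ⟨a, ha, rfl⟩
    exact hc a ha

/-- If `(W, ⊇)` and the functions with everywhere dominance are Tukey below `(V, ⊇)`, with `W` a p-point,
then `(V · W, ⊇)` is Tukey below `(V, ⊇)`. -/
theorem fub_le {V W : Ultrafilter ℕ} (hW : NonPrin W) (hWp : IsPPt W)
    (h1 : TukLE (InclOrd W) (InclOrd V)) (h2 : TukLE FunLE (InclOrd V)) :
    TukLE (InclOrd (fub V W)) (InclOrd V) := by
  classical
  obtain ⟨α, hα⟩ := h1
  obtain ⟨β, hβ⟩ := h2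
  have key : ∀ A : {A : Set ℕ // A ∈ fub V W}, ∃ B : {B : Set ℕ // B ∈ W}, ∃ h : ℕ → ℕ,
      ∀ i, {j | Nat.pair i j ∈ A.1} ∈ W → ∀ j ∈ B.1, h i ≤ j → Nat.pair i j ∈ A.1 := by
    intro A
    obtain ⟨B, hB, hBf⟩ := hWp
      {X | ∃ i, X = {j | Nat.pair i j ∈ A.1} ∧ {j | Nat.pair i j ∈ A.1} ∈ W}
      ((Set.countable_range fun i => {j | Nat.pair i j ∈ A.1}).mono
        (by rintro _ ⟨i, rfl, _⟩; exact ⟨i, rfl⟩))
      (by rintro _ ⟨i, rfl, hi⟩; exact hi)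
    have h3 : ∀ i, ∃ m, {j | Nat.pair i j ∈ A.1} ∈ W → ∀ j ∈ B, m ≤ j → Nat.pair i j ∈ A.1 := by
      intro i
      by_cases hi : {j | Nat.pair i j ∈ A.1} ∈ W
      · obtain ⟨b, hb⟩ := (hBf _ ⟨i, rfl, hi⟩).bddAbove
        refine ⟨b + 1, fun _ j hj hbj => ?_⟩
        by_contra hcon
        have := hb ⟨hj, hcon⟩
        omega
      · exact ⟨0, fun h => absurd h hi⟩
    choose h hh using h3
    exact ⟨⟨B, hB⟩, h, hh⟩
  choose B h hBh using key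
  refine ⟨fun A => ⟨{i | {j | Nat.pair i j ∈ A.1} ∈ W} ∩ ((α (B A)).1 ∩ (β (h A)).1),
    Filter.inter_mem (mem_fub.1 A.2) (Filter.inter_mem (α (B A)).2 (β (h A)).2)⟩, ?_⟩
  intro S hS
  rintro ⟨⟨Y, hY⟩, hYS⟩
  have hY1 : ∀ A ∈ S, Y ⊆ {i | {j | Nat.pair i j ∈ A.1} ∈ W} := fun A hA =>
    (hYS A hA).trans inter_subset_left
  have hb1 : ∃ b, ∀ a ∈ B '' S, InclOrd W a b := by
    by_contra hcon
    apply hα _ hcon
    refine ⟨⟨Y, hY⟩, ?_⟩
    rintro _ ⟨A, hA, rfl⟩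
    exact (hYS A hA).trans (inter_subset_right.trans inter_subset_left)
  have hb2 : ∃ b, ∀ a ∈ h '' S, FunLE a b := by
    by_contra hcon
    apply hβ _ hcon
    refine ⟨⟨Y, hY⟩, ?_⟩
    rintro _ ⟨A, hA, rfl⟩
    exact (hYS A hA).trans (inter_subset_right.trans inter_subset_right)
  obtain ⟨⟨C, hC⟩, hC'⟩ := hb1
  obtain ⟨g, hg⟩ := hb2
  apply hS
  refine ⟨⟨{x | x.unpair.1 ∈ Y ∧ x.unpair.2 ∈ C ∧ g x.unpair.1 ≤ x.unpair.2}, ?_⟩, ?_⟩
  · rw [mem_fub]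
    refine Filter.mem_of_superset hY ?_
    intro i hi
    refine Filter.mem_of_superset (Filter.inter_mem hC (ici_mem hW (g i))) ?_
    intro j hj
    show (Nat.pair i j).unpair.1 ∈ Y ∧ (Nat.pair i j).unpair.2 ∈ C ∧
      g (Nat.pair i j).unpair.1 ≤ (Nat.pair i j).unpair.2
    rw [Nat.unpair_pair]
    exact ⟨hi, hj.1, hj.2⟩
  · intro A hA x hx
    obtain ⟨hx1, hx2, hx3⟩ := hx
    have h3 := hBh A x.unpair.1 (hY1 A hA hx1) x.unpair.2 (hC' _ ⟨A, hA, rfl⟩ hx2)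
      ((hg _ ⟨A, hA, rfl⟩ _).trans hx3)
    rwa [Nat.pair_unpair] at h3

/-- `(V, ⊇)` is Tukey below `(V · W, ⊇*)`. -/
theorem le_fub {V W : Ultrafilter ℕ} (hW : NonPrin W) :
    TukLE (InclOrd V) (AlmOrd (fub V W)) := by
  have hemb : ∀ Y ∈ V, {x : ℕ | x.unpair.1 ∈ Y} ∈ fub V W := by
    intro Y hY
    rw [mem_fub]
    refine Filter.mem_of_superset hY ?_
    intro i hi
    refine Filter.mem_of_superset Filter.univ_mem ?_
    intro j _
    show (Nat.pair i j).unpair.1 ∈ Y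
    rw [Nat.unpair_pair]
    exact hi
  refine ⟨fun Y => ⟨_, hemb Y.1 Y.2⟩, ?_⟩
  intro S hS
  rintro ⟨⟨C, hC⟩, hC'⟩
  apply hS
  refine ⟨⟨_, mem_fub.1 hC⟩, ?_⟩
  intro Y hY i hi
  by_contra hcon
  have h1 : (C \ {x : ℕ | x.unpair.1 ∈ Y.1}).Finite := hC' Y hY
  apply infinite_of_mem hW hi
  refine Set.Finite.of_finite_image (f := fun j => Nat.pair i j) (h1.subset ?_) ?_
  · rintro _ ⟨j, hj, rfl⟩
    refine ⟨hj, ?_⟩
    intro h3
    have h4 : (Nat.pair i j).unpair.1 ∈ Y.1 := h3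
    rw [Nat.unpair_pair] at h4
    exact hcon h4
  · intro a _ b _ hab
    exact (Nat.pair_eq_pair.1 hab).2

/-- **The exact criterion for Fubini products.** For nonprincipal `V` and a nonprincipal p-point `W`, the
orders `⊇` and `⊇*` of `V · W` are Tukey equivalent exactly when both `(W, ⊇)` and the functions with
everywhere dominance are Tukey below `(V, ⊇)`. -/
theorem crit {V W : Ultrafilter ℕ} (hV : NonPrin V) (hW : NonPrin W) (hWp : IsPPt W) :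
    TukLE (InclOrd (fub V W)) (AlmOrd (fub V W)) ↔
      TukLE (InclOrd W) (InclOrd V) ∧ TukLE FunLE (InclOrd V) :=
  ⟨fun h => ⟨tukLE_of_fub hWp h, fun_of_fub hV hW hWp h⟩,
    fun h => tukLE_trans (fub_le hW hWp h.1 h.2) (le_fub hW)⟩

end Pool.Agent.Y871.TK
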