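import Pool.Agent.Y871.TK.Crit
import Pool.Agent.H341Q.TUCount
import Pool.Agent.H341Q.TUTower

set_option autoImplicit false

open Set Cardinal Pool.Agent.H341Q.TU

namespace Pool.Agent.Y871.TK

/-- A family of functions such that every function is eventually below one of its members. -/
def Dominating (S : Set (ℕ → ℕ)) : Prop := ∀ f : ℕ → ℕ, ∃ g ∈ S, ∀ᶠ n in Filter.atTop, f n ≤ g n

/-- `𝔡`, the least size of a dominating family. -/
noncomputable def domNum : Cardinal.{0} := sInf {κ | ∃ S : Set (ℕ → ℕ), Dominating S ∧ #S = κ}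

/-- `S` generates the ultrafilter `U`. -/
def IsBase (U : Ultrafilter ℕ) (S : Set (Set ℕ)) : Prop := (∀ A ∈ S, A ∈ U) ∧ ∀ A ∈ U, ∃ B ∈ S, B ⊆ A

/-- `𝔲`, the least size of a base of a nonprincipal ultrafilter. -/
noncomputable def ultNum : Cardinal.{0} :=
  sInf {κ | ∃ U : Ultrafilter ℕ, NonPrin U ∧ ∃ S, IsBase U S ∧ #S = κ}

theorem domNum_le {S : Set (ℕ → ℕ)} (h : Dominating S) : domNum ≤ #S :=
  csInf_le' ⟨S, h, rfl⟩

theorem ultNum_le {U : Ultrafilter ℕ} (hU : NonPrin U) {S : Set (Set ℕ)} (h : IsBase U S) :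
    ultNum ≤ #S := csInf_le' ⟨U, hU, S, h, rfl⟩

theorem exists_nonPrin : ∃ U : Ultrafilter ℕ, NonPrin U := by
  refine ⟨Filter.hyperfilter ℕ, fun n hn => ?_⟩
  exact Filter.notMem_hyperfilter_of_finite (Set.finite_singleton n) hn

theorem exists_ultNum : ∃ U : Ultrafilter ℕ, NonPrin U ∧ ∃ S, IsBase U S ∧ #S = ultNum := by
  have h : ({κ | ∃ U : Ultrafilter ℕ, NonPrin U ∧ ∃ S, IsBase U S ∧ #S = κ} : Set Cardinal.{0}).Nonempty := by
    obtain ⟨U, hU⟩ := exists_nonPrin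
    exact ⟨_, U, hU, {A | A ∈ U}, ⟨fun A hA => hA, fun A hA => ⟨A, hA, le_refl _⟩⟩, rfl⟩
  exact csInf_mem h

/-- Ketonen's argument. -/
theorem ketonen (S : Set (Set ℕ)) (hS : #S < domNum) (A : ℕ → Set ℕ)
    (h : ∀ B ∈ S, ∀ n, (B ∩ ⋂ i ∈ Finset.range (n + 1), A i).Infinite) :
    ∃ P : Set ℕ, (∀ n, (P \ A n).Finite) ∧ ∀ B ∈ S, (B ∩ P).Infinite := by
  have h1 : ∀ B : S, ∀ n, ∃ x, n ≤ x ∧ x ∈ B.1 ∩ ⋂ i ∈ Finset.range (n + 1), A i := by
    intro B n
    obtain ⟨x, hx, hx'⟩ := (h B.1 B.2 n).exists_gt n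
    exact ⟨x, hx'.le, hx⟩
  choose f hf hf' using h1
  have h2 : ¬ Dominating (Set.range f) := by
    intro hd
    have h3 := domNum_le hd
    exact absurd (h3.trans Cardinal.mk_range_le) (not_le.2 hS)
  unfold Dominating at h2
  push Not at h2
  obtain ⟨g, hg⟩ := h2
  refine ⟨{x | ∃ n, n ≤ x ∧ x < g n ∧ x ∈ ⋂ i ∈ Finset.range (n + 1), A i}, ?_, ?_⟩
  · intro i
    have h3 : (⋃ n ∈ {n | n < i}, {x | x < g n}).Finite :=
      Set.Finite.biUnion (Set.finite_lt_nat i) fun n _ => Set.finite_lt_nat (g n)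
    refine h3.subset ?_
    rintro x ⟨⟨n, hn, hx, hx'⟩, hxi⟩
    simp only [mem_iUnion]
    refine ⟨n, ?_, hx⟩
    by_contra hni
    apply hxi
    simp only [mem_iInter] at hx'
    exact hx' i (Finset.mem_range.2 (Nat.lt_succ_of_le (not_lt.1 hni)))
  · intro B hB hfin
    obtain ⟨b, hb⟩ := hfin.bddAbove
    have h3 := hg (f ⟨B, hB⟩) ⟨⟨B, hB⟩, rfl⟩
    obtain ⟨n, hn, hn'⟩ := Filter.frequently_atTop.1 h3 (b + 1)
    have h4 := hb (a := f ⟨B, hB⟩ n) ⟨(hf' ⟨B, hB⟩ n).1, n, hf ⟨B, hB⟩ n, hn', (hf' ⟨B, hB⟩ n).2⟩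
    have h5 := hf ⟨B, hB⟩ n
    omega

/-- A nonprincipal ultrafilter with fewer than `𝔡` generators is a p-point. -/
theorem ppt_of_base {U : Ultrafilter ℕ} (hU : NonPrin U) {S : Set (Set ℕ)} (hS : IsBase U S)
    (hlt : #S < domNum) : IsPPt U := by
  intro T hT hTU
  rcases T.eq_empty_or_nonempty with rfl | hne
  · exact ⟨univ, Filter.univ_mem, by simp⟩
  obtain ⟨A, rfl⟩ := hT.exists_eq_range hne
  obtain ⟨P, hP, hP'⟩ := ketonen S hlt A (fun B hB n => by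
    apply infinite_of_mem hU
    refine Filter.inter_mem (hS.1 B hB) ?_
    exact (Filter.biInter_finset_mem _).2 fun i _ => hTU _ ⟨i, rfl⟩)
  refine ⟨P, ?_, by rintro _ ⟨n, rfl⟩; exact hP n⟩
  by_contra hPU
  rw [← Ultrafilter.compl_mem_iff_notMem] at hPU
  obtain ⟨B, hB, hBP⟩ := hS.2 _ hPU
  apply hP' B hB
  refine Set.finite_empty.subset ?_
  rintro x ⟨hx, hx'⟩
  exact hBP hx hx'

/-- The functions are not Tukey below an ultrafilter with fewer than `𝔡` generators. -/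
theorem not_fun_le {U : Ultrafilter ℕ} {S : Set (Set ℕ)} (hS : IsBase U S)
    (hlt : #S < domNum) : ¬ TukLE FunLE (InclOrd U) := by
  rintro ⟨φ, hφ⟩
  have h1 : ∀ B : S, ∃ g, ∀ f, B.1 ⊆ (φ f).1 → FunLE f g := by
    intro B
    by_contra hcon
    push Not at hcon
    apply hφ {f | B.1 ⊆ (φ f).1}
    · rintro ⟨g, hg⟩
      obtain ⟨f, hf, hf'⟩ := hcon g
      exact hf' (hg f hf)
    · exact ⟨⟨B.1, hS.1 _ B.2⟩, fun f hf => hf⟩
  choose g hg using h1
  have h2 : Dominating (Set.range g) := by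
    intro f
    obtain ⟨B, hB, hBf⟩ := hS.2 _ (φ f).2
    exact ⟨g ⟨B, hB⟩, ⟨_, rfl⟩, Filter.Eventually.of_forall fun n => hg ⟨B, hB⟩ f hBf n⟩
  exact absurd ((domNum_le h2).trans Cardinal.mk_range_le) (not_le.2 hlt)

/-- All finite intersections of members of `S` are infinite. -/
def Good (S : Set (Set ℕ)) : Prop := ∀ F : Set (Set ℕ), F ⊆ S → F.Finite → (⋂₀ F).Infinite

/-- The sets of finite intersections. -/
def fi (S : Set (Set ℕ)) : Set (Set ℕ) := {B | ∃ F : Set (Set ℕ), F ⊆ S ∧ F.Finite ∧ B = ⋂₀ F}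

theorem mk_fi_lt {S : Set (Set ℕ)} (hS : #S < Cardinal.continuum) : #(fi S) < Cardinal.continuum := by
  have h1 : fi S ⊆ Set.range (fun F : Finset S => ⋂₀ ((fun x : S => x.1) '' (F : Set S))) := by
    rintro _ ⟨F, hF, hFf, rfl⟩
    have h2 : (((fun x : S => x.1) ⁻¹' F)).Finite := hFf.preimage (fun a _ b _ hab => Subtype.ext hab)
    refine ⟨h2.toFinset, ?_⟩
    show ⋂₀ ((fun x : S => x.1) '' ((h2.toFinset : Finset S) : Set S)) = ⋂₀ F
    rw [h2.coe_toFinset, Set.image_preimage_eq_inter_range]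
    have h3 : F ∩ Set.range (fun x : S => x.1) = F := by
      rw [Set.inter_eq_left]
      intro X hX
      exact ⟨⟨X, hF hX⟩, rfl⟩
    rw [h3]
  refine lt_of_le_of_lt (Cardinal.mk_le_mk_of_subset h1) (lt_of_le_of_lt Cardinal.mk_range_le ?_)
  rcases finite_or_infinite S with hf | hi
  · exact lt_trans (Cardinal.lt_aleph0_of_finite _) Cardinal.aleph0_lt_continuum
  · rw [Cardinal.mk_finset_of_infinite]
    exact hS

/-- The requirement at a stage: `S` is the earlier family, `A` a sequence, `Φ` a family to be avoided. -/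
def Rq (Φ : Set (Set ℕ)) (A : ℕ → Set ℕ) (S : Set (Set ℕ)) (P : Set ℕ) : Prop :=
  Good (insert P S) ∧
  ((∀ n, (P \ A n).Finite) ∨ ∃ B ∈ fi S, ∃ n, (B ∩ ⋂ i ∈ Finset.range (n + 1), A i).Finite) ∧
  ((∃ X ∈ Φ, P ⊆ Xᶜ) ∨ ∃ X, X ∉ Φ ∧ P ⊆ X)

theorem good_insert {S : Set (Set ℕ)} {P : Set ℕ} (h : ∀ B ∈ fi S, (B ∩ P).Infinite) :
    Good (insert P S) := by
  intro F hF hFf
  refine (h (⋂₀ (F \ {P})) ⟨F \ {P}, ?_, hFf.subset Set.sdiff_subset, rfl⟩).mono ?_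
  · rintro X ⟨hX, hXP⟩
    rcases hF hX with h1 | h1
    · exact absurd h1 hXP
    · exact h1
  · rintro x ⟨hx, hxP⟩ X hX
    by_cases hXP : X = P
    · rw [hXP]; exact hxP
    · exact hx X ⟨hX, hXP⟩

theorem fi_inter {S : Set (Set ℕ)} {B C : Set ℕ} (hB : B ∈ fi S) (hC : C ∈ fi S) : B ∩ C ∈ fi S := by
  obtain ⟨F, hF, hFf, rfl⟩ := hB
  obtain ⟨G, hG, hGf, rfl⟩ := hC
  exact ⟨F ∪ G, Set.union_subset hF hG, hFf.union hGf, (Set.sInter_union F G).symm⟩

/-- If no nonprincipal ultrafilter has fewer than continuum many generators, a good family with fewer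
than continuum many members leaves some set undecided. -/
theorem exists_split (hu : Cardinal.continuum ≤ ultNum) {S : Set (Set ℕ)} (hS : #S < Cardinal.continuum)
    (hg : Good S) : ∃ X : Set ℕ, (∀ B ∈ fi S, (B ∩ X).Infinite) ∧ ∀ B ∈ fi S, (B ∩ Xᶜ).Infinite := by
  by_contra hcon
  push Not at hcon
  have hinf : ∀ B ∈ fi S, B.Infinite := by
    rintro _ ⟨F, hF, hFf, rfl⟩
    exact hg F hF hFf
  let F : Filter ℕ :=
    { sets := {B | ∃ C ∈ fi S, (C \ B).Finite}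
      univ_sets := ⟨univ, ⟨∅, Set.empty_subset _, Set.finite_empty, by simp⟩, by simp⟩
      sets_of_superset := by
        rintro X Y ⟨a, ha, ha'⟩ hXY
        exact ⟨a, ha, ha'.subset (Set.sdiff_subset_sdiff_right hXY)⟩
      inter_sets := by
        rintro X Y ⟨a, ha, ha'⟩ ⟨b, hb, hb'⟩
        refine ⟨a ∩ b, fi_inter ha hb, (ha'.union hb').subset ?_⟩
        rintro x ⟨⟨hxa, hxb⟩, hx⟩
        by_cases h : x ∈ X
        · exact Or.inr ⟨hxb, fun hY => hx ⟨h, hY⟩⟩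
        · exact Or.inl ⟨hxa, h⟩ }
  have hF : ∀ B, B ∈ F ↔ ∃ C ∈ fi S, (C \ B).Finite := fun B => Iff.rfl
  have hult : ∀ s, sᶜ ∉ F ↔ s ∈ F := by
    intro s
    constructor
    · intro h
      by_contra hs
      obtain ⟨B, hB, hB'⟩ := hcon s (by
        intro B hB hfin
        apply h
        refine (hF _).2 ⟨B, hB, hfin.subset ?_⟩
        rintro x ⟨hx, hx'⟩
        exact ⟨hx, by simpa using hx'⟩)
      apply hs
      refine (hF _).2 ⟨B, hB, hB'.subset ?_⟩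
      rintro x ⟨hx, hx'⟩
      exact ⟨hx, hx'⟩
    · intro h1 h2
      have h3 := F.inter_sets h1 h2
      rw [Set.inter_compl_self] at h3
      obtain ⟨C, hC, hC'⟩ := h3
      rw [Set.sdiff_empty] at hC'
      exact hinf C hC hC'
  set U := Ultrafilter.ofComplNotMemIff F hult with hU
  have hUF : ∀ B, B ∈ U ↔ B ∈ F := fun B => Iff.rfl
  have hUn : NonPrin U := by
    intro n hn
    obtain ⟨C, hC, hC'⟩ := (hF _).1 hn
    apply hinf C hC
    refine (hC'.union (Set.finite_singleton n)).subset ?_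
    intro x hx
    by_cases h : x ∈ ({n} : Set ℕ)
    · exact Or.inr h
    · exact Or.inl ⟨hx, h⟩
  have hbase : IsBase U (Set.range fun p : fi S × ℕ => p.1.1 ∩ {x | p.2 ≤ x}) := by
    constructor
    · rintro _ ⟨⟨⟨B, hB⟩, n⟩, rfl⟩
      refine (hF _).2 ⟨B, hB, (Set.finite_lt_nat n).subset ?_⟩
      rintro x ⟨hx, hx'⟩
      by_contra hxn
      have hnx : n ≤ x := not_lt.1 hxn
      exact hx' ⟨hx, hnx⟩
    · intro A hA
      obtain ⟨C, hC, hC'⟩ := (hF _).1 hA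
      obtain ⟨b, hb⟩ := hC'.bddAbove
      refine ⟨_, ⟨⟨⟨C, hC⟩, b + 1⟩, rfl⟩, ?_⟩
      rintro x ⟨hx, hx'⟩
      by_contra hxA
      have h1 := hb ⟨hx, hxA⟩
      have h2 : b + 1 ≤ x := hx'
      omega
  have h1 := ultNum_le hUn hbase
  have h2 : #(Set.range fun p : fi S × ℕ => p.1.1 ∩ {x | p.2 ≤ x}) < Cardinal.continuum := by
    refine lt_of_le_of_lt Cardinal.mk_range_le ?_
    rw [Cardinal.mk_prod, Cardinal.lift_id, Cardinal.lift_id]
    exact Cardinal.mul_lt_of_lt Cardinal.aleph0_le_continuum (mk_fi_lt hS)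
      (by rw [Cardinal.mk_nat]; exact Cardinal.aleph0_lt_continuum)
  exact absurd (hu.trans h1) (not_le.2 h2)

theorem exists_rq (hd : domNum = Cardinal.continuum) (hu : Cardinal.continuum ≤ ultNum)
    (Φ : Set (Set ℕ)) (A : ℕ → Set ℕ) {S : Set (Set ℕ)} (hS : #S < Cardinal.continuum) (hg : Good S) :
    ∃ P, Rq Φ A S P := by
  have hinf : ∀ B ∈ fi S, B.Infinite := by
    rintro _ ⟨F, hF, hFf, rfl⟩
    exact hg F hF hFf
  obtain ⟨P, hP1, hP2⟩ : ∃ P : Set ℕ, (∀ B ∈ fi S, (B ∩ P).Infinite) ∧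
      ((∀ n, (P \ A n).Finite) ∨
        ∃ B ∈ fi S, ∃ n, (B ∩ ⋂ i ∈ Finset.range (n + 1), A i).Finite) := by
    by_cases h : ∃ B ∈ fi S, ∃ n, (B ∩ ⋂ i ∈ Finset.range (n + 1), A i).Finite
    · exact ⟨univ, fun B hB => by rw [Set.inter_univ]; exact hinf B hB, Or.inr h⟩
    · push Not at h
      obtain ⟨P, hP, hP'⟩ := ketonen (fi S) (by rw [hd]; exact mk_fi_lt hS) A h
      exact ⟨P, hP', Or.inl hP⟩
  have hS' : #(insert P S : Set (Set ℕ)) < Cardinal.continuum := by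
    refine lt_of_le_of_lt Cardinal.mk_insert_le ?_
    exact Cardinal.add_lt_of_lt Cardinal.aleph0_le_continuum hS
      (lt_of_lt_of_le Cardinal.one_lt_aleph0 Cardinal.aleph0_le_continuum)
  obtain ⟨X, hX1, hX2⟩ := exists_split hu hS' (good_insert hP1)
  have hmem : ∀ B ∈ fi S, B ∩ P ∈ fi (insert P S) := by
    rintro _ ⟨F, hF, hFf, rfl⟩
    refine ⟨insert P F, Set.insert_subset_insert hF, hFf.insert P, ?_⟩
    rw [Set.sInter_insert, Set.inter_comm]
  by_cases hXΦ : X ∈ Φ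
  · refine ⟨P ∩ Xᶜ, good_insert fun B hB => ?_, ?_, Or.inl ⟨X, hXΦ, inter_subset_right⟩⟩
    · rw [← Set.inter_assoc]
      exact hX2 _ (hmem B hB)
    · exact hP2.imp (fun h n => (h n).subset (Set.sdiff_subset_sdiff_left inter_subset_left)) id
  · refine ⟨P ∩ X, good_insert fun B hB => ?_, ?_, Or.inr ⟨X, hXΦ, inter_subset_right⟩⟩
    · rw [← Set.inter_assoc]
      exact hX1 _ (hmem B hB)
    · exact hP2.imp (fun h n => (h n).subset (Set.sdiff_subset_sdiff_left inter_subset_left)) id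

end Pool.Agent.Y871.TK
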