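import Pool.Agent.Y871.TK.Dom

set_option autoImplicit false

open Set Cardinal Pool.Agent.H341Q.TU

namespace Pool.Agent.Y871.TK

open Classical in
/-- The choice made at a stage. -/
noncomputable def pk (Φ : Set (Set ℕ)) (A : ℕ → Set ℕ) (S : Set (Set ℕ)) : Set ℕ :=
  if h : ∃ P, Rq Φ A S P then h.choose else ∅

theorem pk_spec {Φ : Set (Set ℕ)} {A : ℕ → Set ℕ} {S : Set (Set ℕ)} (h : ∃ P, Rq Φ A S P) :
    Rq Φ A S (pk Φ A S) := by
  unfold pk
  rw [dif_pos h]
  exact h.choose_spec

/-- The sets chosen by recursion. -/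
noncomputable def seq (Φ : Set ℕ → Set (Set ℕ)) (e : TT → (ℕ → Set ℕ) × Set ℕ) : TT → Set ℕ :=
  WellFounded.fix (r := (· < ·)) wellFounded_lt fun a ih =>
    pk (Φ (e a).2) (e a).1 {X | ∃ b, ∃ hb : b < a, X = ih b hb}

/-- The sets chosen before a stage. -/
noncomputable def pre (Φ : Set ℕ → Set (Set ℕ)) (e : TT → (ℕ → Set ℕ) × Set ℕ) (a : TT) : Set (Set ℕ) :=
  {X | ∃ b, b < a ∧ X = seq Φ e b}

theorem seq_rq (hd : domNum = Cardinal.continuum) (hu : Cardinal.continuum ≤ ultNum)
    (Φ : Set ℕ → Set (Set ℕ)) (e : TT → (ℕ → Set ℕ) × Set ℕ) (a : TT) :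
    Rq (Φ (e a).2) (e a).1 (pre Φ e a) (seq Φ e a) := by
  induction a using WellFoundedLT.induction with
  | ind a ih =>
    have hex : ∃ P, Rq (Φ (e a).2) (e a).1 (pre Φ e a) P := by
      apply exists_rq hd hu
      · have h1 : pre Φ e a = (seq Φ e) '' (Set.Iio a) := by
          ext X
          constructor
          · rintro ⟨b, hb, rfl⟩; exact ⟨b, hb, rfl⟩
          · rintro ⟨b, hb, rfl⟩; exact ⟨b, hb, rfl⟩
        rw [h1]
        refine lt_of_le_of_lt Cardinal.mk_image_le ?_
        have := Cardinal.mk_Iio_lt a (by simp)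
        simpa using this
      · intro F hFS hF
        have key : ∀ F : Set (Set ℕ), F.Finite → F ⊆ pre Φ e a →
            F = ∅ ∨ ∃ b, b < a ∧ F ⊆ insert (seq Φ e b) (pre Φ e b) := by
          intro F hF
          induction F, hF using Set.Finite.induction_on with
          | empty => intro _; exact Or.inl rfl
          | @insert X F _ _ ihF =>
            intro hsub
            right
            obtain ⟨c, hca, rfl⟩ := hsub (Set.mem_insert _ _)
            rcases ihF ((Set.subset_insert _ _).trans hsub) with rfl | ⟨b, hb, hbF⟩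
            · exact ⟨c, hca, Set.insert_subset (Set.mem_insert _ _) (Set.empty_subset _)⟩
            · rcases lt_trichotomy b c with hbc | rfl | hcb
              · refine ⟨c, hca, Set.insert_subset (Set.mem_insert _ _) ?_⟩
                intro Y hY
                rcases hbF hY with h1 | ⟨d, hd, rfl⟩
                · exact Or.inr ⟨b, hbc, h1⟩
                · exact Or.inr ⟨d, hd.trans hbc, rfl⟩
              · exact ⟨b, hb, Set.insert_subset (Set.mem_insert _ _) hbF⟩
              · exact ⟨b, hb, Set.insert_subset (Or.inr ⟨c, hcb, rfl⟩) hbF⟩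
        rcases key F hF hFS with rfl | ⟨b, hb, hbF⟩
        · simp [Set.infinite_univ]
        · exact (ih b hb).1 F hbF hF
    have heq : seq Φ e a = pk (Φ (e a).2) (e a).1 (pre Φ e a) := by
      have h0 : ({X | ∃ b, ∃ _ : b < a, X = seq Φ e b} : Set (Set ℕ)) = pre Φ e a := by
        ext X
        simp [pre]
      rw [← h0]
      unfold seq
      rw [WellFounded.fix_eq]
    rw [heq]
    exact pk_spec hex

/-- **Ketonen's construction.** Under `𝔡 = 𝔠 ≤ 𝔲`, for every family of continuum many sets of subsets of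
`ℕ` there is a nonprincipal p-point different from all of them. -/
theorem exists_ppt (hd : domNum = Cardinal.continuum) (hu : Cardinal.continuum ≤ ultNum)
    (Φ : Set ℕ → Set (Set ℕ)) :
    ∃ W : Ultrafilter ℕ, NonPrin W ∧ IsPPt W ∧ ∀ D, ¬ ∀ B, B ∈ W ↔ B ∈ Φ D := by
  obtain ⟨e⟩ : Nonempty (TT ≃ ((ℕ → Set ℕ) × Set ℕ)) := by
    rw [← Cardinal.eq]
    simp
  set A := seq Φ e with hA
  have hreq := seq_rq hd hu Φ e
  set R : Set (Set ℕ) := Set.range A with hR
  have hfin : ∀ F : Set (Set ℕ), F.Finite → F ⊆ R → F = ∅ ∨ ∃ b, F ⊆ insert (A b) (pre Φ e b) := by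
    intro F hF
    induction F, hF using Set.Finite.induction_on with
    | empty => intro _; exact Or.inl rfl
    | @insert X F _ _ ihF =>
      intro hsub
      right
      obtain ⟨c, rfl⟩ := hsub (Set.mem_insert _ _)
      rcases ihF ((Set.subset_insert _ _).trans hsub) with rfl | ⟨b, hbF⟩
      · exact ⟨c, Set.insert_subset (Set.mem_insert _ _) (Set.empty_subset _)⟩
      · rcases lt_trichotomy b c with hbc | rfl | hcb
        · refine ⟨c, Set.insert_subset (Set.mem_insert _ _) ?_⟩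
          intro Y hY
          rcases hbF hY with h1 | ⟨d, hd, rfl⟩
          · exact Or.inr ⟨b, hbc, h1⟩
          · exact Or.inr ⟨d, hd.trans hbc, rfl⟩
        · exact ⟨b, Set.insert_subset (Set.mem_insert _ _) hbF⟩
        · exact ⟨b, Set.insert_subset (Or.inr ⟨c, hcb, rfl⟩) hbF⟩
  have hgood : Good R := by
    intro F hFR hF
    rcases hfin F hF hFR with rfl | ⟨b, hb⟩
    · simp [Set.infinite_univ]
    · exact (hreq b).1 F hb hF
  have hinf : ∀ B ∈ fi R, B.Infinite := by
    rintro _ ⟨F, hF, hFf, rfl⟩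
    exact hgood F hF hFf
  have hpre : ∀ a, fi (pre Φ e a) ⊆ fi R := by
    rintro a _ ⟨F, hF, hFf, rfl⟩
    refine ⟨F, fun X hX => ?_, hFf, rfl⟩
    obtain ⟨b, _, rfl⟩ := hF hX
    exact ⟨b, rfl⟩
  have hone : ∀ a, A a ∈ fi R := fun a =>
    ⟨{A a}, Set.singleton_subset_iff.2 ⟨a, rfl⟩, Set.finite_singleton _, (Set.sInter_singleton _).symm⟩
  let F : Filter ℕ :=
    { sets := {B | ∃ C ∈ fi R, (C \ B).Finite}
      univ_sets := ⟨univ, ⟨∅, Set.empty_subset _, Set.finite_empty, by simp⟩, by simp⟩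
      sets_of_superset := by
        rintro X Y ⟨a, ha, ha'⟩ hXY
        exact ⟨a, ha, ha'.subset (Set.sdiff_subset_sdiff_right hXY)⟩
      inter_sets := by
        rintro X Y ⟨a, ha, ha'⟩ ⟨b, hb, hb'⟩
        refine ⟨a ∩ b, fi_inter ha hb, (ha'.union hb').subset ?_⟩
        rintro x ⟨⟨hxa, hxb⟩, hx⟩
        by_cases h : x ∈ X
        · exact Or.inr ⟨hxb, fun hY => hx ⟨h, hY⟩⟩
        · exact Or.inl ⟨hxa, h⟩ }
  have hF : ∀ B, B ∈ F ↔ ∃ C ∈ fi R, (C \ B).Finite := fun B => Iff.rfl
  have hFinf : ∀ B ∈ F, B.Infinite := by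
    intro B hB hfinB
    obtain ⟨C, hC, hC'⟩ := (hF B).1 hB
    apply hinf C hC
    refine (hC'.union hfinB).subset ?_
    intro x hx
    by_cases h : x ∈ B
    · exact Or.inr h
    · exact Or.inl ⟨hx, h⟩
  have hult : ∀ s, sᶜ ∉ F ↔ s ∈ F := by
    intro s
    constructor
    · intro h
      obtain ⟨a, ha⟩ := e.surjective ((fun _ => s), ∅)
      rcases (hreq a).2.1 with h1 | ⟨B, hB, n, hBn⟩
      · refine (hF s).2 ⟨A a, hone a, ?_⟩
        have h2 := h1 0
        rw [ha] at h2
        exact h2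
      · exfalso
        apply h
        refine (hF _).2 ⟨B, hpre a hB, hBn.subset ?_⟩
        rintro x ⟨hx, hx'⟩
        refine ⟨hx, ?_⟩
        rw [ha]
        simp only [mem_iInter]
        intro i _
        by_contra hxs
        exact hx' hxs
    · intro h1 h2
      have h3 := F.inter_sets h1 h2
      rw [Set.inter_compl_self] at h3
      exact hFinf _ h3 Set.finite_empty
  set W := Ultrafilter.ofComplNotMemIff F hult with hW
  have hWF : ∀ B, B ∈ W ↔ B ∈ F := fun B => Iff.rfl
  have hAW : ∀ a, A a ∈ W := fun a => (hF _).2 ⟨A a, hone a, by simp⟩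
  have hfiW : ∀ B ∈ fi R, B ∈ W := fun B hB => (hF _).2 ⟨B, hB, by simp⟩
  refine ⟨W, fun n hn => hFinf _ hn (Set.finite_singleton n), ?_, ?_⟩
  · intro S hS hSW
    rcases S.eq_empty_or_nonempty with rfl | hne
    · exact ⟨univ, Filter.univ_mem, by simp⟩
    obtain ⟨s, rfl⟩ := hS.exists_eq_range hne
    obtain ⟨a, ha⟩ := e.surjective (s, ∅)
    rcases (hreq a).2.1 with h1 | ⟨B, hB, n, hBn⟩
    · refine ⟨A a, hAW a, ?_⟩
      rintro _ ⟨n, rfl⟩
      have h2 := h1 n
      rw [ha] at h2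
      exact h2
    · exfalso
      rw [ha] at hBn
      refine hFinf _ ?_ hBn
      have h2 : (B ∩ ⋂ i ∈ Finset.range (n + 1), s i) ∈ W := by
        refine Filter.inter_mem (hfiW B (hpre a hB)) ?_
        exact (Filter.biInter_finset_mem _).2 fun i _ => hSW _ ⟨i, rfl⟩
      exact h2
  · intro D hD
    obtain ⟨a, ha⟩ := e.surjective ((fun _ => univ), D)
    have h1 := (hreq a).2.2
    rw [ha] at h1
    rcases h1 with ⟨X, hX, hPX⟩ | ⟨X, hX, hPX⟩
    · have h2 : X ∈ W := (hD X).2 hX
      have h3 : Xᶜ ∈ W := Filter.mem_of_superset (hAW a) hPX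
      exact (Ultrafilter.compl_mem_iff_notMem.1 h3) h2
    · exact hX ((hD X).1 (Filter.mem_of_superset (hAW a) hPX))

end Pool.Agent.Y871.TK
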