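import Pool.Agent.Y871.TK.Rec

set_option autoImplicit false

open Set Cardinal Pool.Agent.H341Q.TU

namespace Pool.Agent.Y871.TK

/-- If `𝔡 = 𝔠` or `𝔲 < 𝔡`, there are p-points `V`, `W` such that `(V · W, ⊇)` is not Tukey below
`(V · W, ⊇*)`. -/
theorem top (h : domNum = Cardinal.continuum ∨ ultNum < domNum) :
    ∃ V W : Ultrafilter ℕ, NonPrin V ∧ IsPPt V ∧ NonPrin W ∧ IsPPt W ∧
      ¬ TukLE (InclOrd (fub V W)) (AlmOrd (fub V W)) := by
  by_cases hlt : ultNum < domNum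
  · obtain ⟨U, hU, S, hS, hSu⟩ := exists_ultNum
    have hSd : #S < domNum := by rw [hSu]; exact hlt
    have hp := ppt_of_base hU hS hSd
    refine ⟨U, U, hU, hp, hU, hp, fun hT => ?_⟩
    exact not_fun_le hS hSd (fun_of_fub hU hU hp hT)
  · have hd : domNum = Cardinal.continuum := h.resolve_right hlt
    have hu : Cardinal.continuum ≤ ultNum := by rw [← hd]; exact not_lt.1 hlt
    obtain ⟨V, hV, hVp, _⟩ := exists_ppt hd hu (fun _ => ∅)
    let e : Set ℕ ≃ Set (ℕ × Finset ℕ × ℕ) :=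
      Equiv.Set.congr (Denumerable.eqv (ℕ × Finset ℕ × ℕ)).symm
    obtain ⟨W, hW, hWp, hWc⟩ := exists_ppt hd hu (fun D => Coded V (e D))
    refine ⟨V, W, hV, hVp, hW, hWp, fun hT => ?_⟩
    obtain ⟨R, hR⟩ := coded_of_tukLE hVp (tukLE_of_fub hWp hT)
    apply hWc (e.symm R)
    intro B
    rw [Equiv.apply_symm_apply]
    exact hR B

end Pool.Agent.Y871.TK
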